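import Pool.Agent.H.MP_d1ae63_mp.Hier
import Pool.Agent.H.MP_d1ae63_mp.Lower
import Pool.Agent.H.MP_d1ae63_mp.Leaf
import Pool.Agent.H.MP_d1ae63_mp.Upper
import Pool.Agent.H.MP_d1ae63_mp.Integ

/-!
# The energy exponent of charged bosons with kinetic energy `|p|^α`

For every `α > 1` the ground state energy of `N` charged particles of charges `±1` (no symmetry
imposed, neutrality not required) is of the exact order `-N^γ(α)`,
`γ(α) = (α²+3α-3)/(α²+2α-3)`.
-/

set_option autoImplicit false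

open MeasureTheory
open scoped FourierTransform ENNReal Real InnerProductSpace

namespace Pool.Agent.Results.MP_d1ae63_mp.EnergyExponent

noncomputable section

/-- One-particle space `ℝ³`. -/
abbrev R3 : Type := EuclideanSpace ℝ (Fin 3)

/-- The configuration space `ℝ^{3N}` of `N` particles, with its Euclidean structure. -/
abbrev Config (N : ℕ) : Type := PiLp 2 (fun _ : Fin N => R3)

/-! Names for the standard structures of `Config N`; each is the one Mathlib provides. -/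

instance instNormed (N : ℕ) : NormedAddCommGroup (Config N) := inferInstance
instance instInner (N : ℕ) : InnerProductSpace ℝ (Config N) := inferInstance
instance instMeasurable (N : ℕ) : MeasurableSpace (Config N) := inferInstance
instance instBorel (N : ℕ) : BorelSpace (Config N) := inferInstance
instance instFinDim (N : ℕ) : FiniteDimensional ℝ (Config N) := inferInstance
instance instMeasure (N : ℕ) : MeasureSpace (Config N) := measureSpaceOfInnerProductSpace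

/-- Wave functions of `N` particles: `L²(ℝ^{3N}; ℂ)` (with respect to Lebesgue measure). -/
abbrev WaveFunction (N : ℕ) : Type := Lp ℂ 2 (volume : Measure (Config N))

/-- Kinetic energy of particle `i`: `⟨ψ, |pᵢ|^α ψ⟩ = ∫ |2πkᵢ|^α |ψ̂(k)|² dk ∈ [0,∞]`,
where `ψ̂(k) = ∫ exp(-2πi⟨x,k⟩) ψ(x) dx` is the `L²` Fourier transform. -/
def kineticAt {N : ℕ} (α : ℝ) (i : Fin N) (ψ : WaveFunction N) : ℝ≥0∞ :=
  ∫⁻ k : Config N, ENNReal.ofReal ((2 * π * ‖k i‖) ^ α) * ‖(𝓕 ψ : WaveFunction N) k‖ₑ ^ 2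

/-- Kinetic energy `K(ψ) = ⟨ψ, ∑ᵢ |pᵢ|^α ψ⟩ ∈ [0,∞]`. -/
def kinetic {N : ℕ} (α : ℝ) (ψ : WaveFunction N) : ℝ≥0∞ :=
  ∑ i : Fin N, kineticAt α i ψ

/-- The Coulomb energy `∑_{i<j} eᵢ eⱼ / |xᵢ - xⱼ|`. -/
def coulomb {N : ℕ} (e : Fin N → ℝ) (x : Config N) : ℝ :=
  ∑ i : Fin N, ∑ j ∈ Finset.Ioi i, e i * e j / ‖x i - x j‖

/-- Potential energy `P(ψ) = ⟨ψ, ∑_{i<j} eᵢ eⱼ |xᵢ - xⱼ|⁻¹ ψ⟩`. -/
def potential {N : ℕ} (e : Fin N → ℝ) (ψ : WaveFunction N) : ℝ :=
  ∫ x : Config N, coulomb e x * ‖ψ x‖ ^ 2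

/-- `E₀^{(α)}(N)`: the infimum of `K(ψ) + P(ψ)` over all normalised `ψ` of finite kinetic energy
and all charges `eᵢ ∈ {+1,-1}` (an extended real number, so that no boundedness is presupposed). -/
def groundEnergy (α : ℝ) (N : ℕ) : EReal :=
  ⨅ (e : Fin N → ℝ) (_ : ∀ i, e i = 1 ∨ e i = -1) (ψ : WaveFunction N) (_ : ‖ψ‖ = 1)
    (_ : kinetic α ψ ≠ ∞), (((kinetic α ψ).toReal + potential e ψ : ℝ) : EReal)

theorem groundEnergy_eq (α : ℝ) (N : ℕ) :
    groundEnergy α N = Pool.Agent.H.MP_d1ae63_mp.E0 α N := rfl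

open Pool.Agent.H.MP_d1ae63_mp in
/-- For `α > 1` and finite kinetic energy the integral defining `potential` converges
absolutely, so that `potential` is the expectation of the Coulomb energy. -/
theorem potential_integrable {α : ℝ} (hα : 1 < α) {N : ℕ} (ψ : WaveFunction N) (hψ : ‖ψ‖ = 1)
    (hK : kinetic α ψ ≠ ∞) (e : Fin N → ℝ) :
    Integrable (fun x : Config N => coulomb e x * ‖ψ x‖ ^ 2) := by
  obtain ⟨m, hm⟩ := exists_nat_gt α
  have hm0 : (0 : ℝ) < m := by linarith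
  have hm1 : 1 ≤ m := by exact_mod_cast (Nat.cast_pos.mp hm0 : 0 < m)
  have hm2 : α < 2 * m := by linarith
  exact integrable_coulomb_of_hier α hα m hm2
    (hier_of_leaf α hα m hm1 (leaf_lemma α hα m hm1)) ψ hψ hK e

open Pool.Agent.H.MP_d1ae63_mp in
/-- For every `α > 1` there are constants `0 < c ≤ C` such that
`-C N^γ(α) ≤ E₀^{(α)}(N) ≤ -c N^γ(α)` for all large `N`. -/
theorem result : ∀ α : ℝ, 1 < α →
    ∃ c C : ℝ, 0 < c ∧ c ≤ C ∧ ∃ N₀ : ℕ, ∀ N : ℕ, N₀ ≤ N →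
      ((-(C * (N : ℝ) ^ ((α ^ 2 + 3 * α - 3) / (α ^ 2 + 2 * α - 3))) : ℝ) : EReal)
        ≤ groundEnergy α N ∧
      groundEnergy α N
        ≤ ((-(c * (N : ℝ) ^ ((α ^ 2 + 3 * α - 3) / (α ^ 2 + 2 * α - 3))) : ℝ) : EReal) := by
  intro α hα
  obtain ⟨m, hm⟩ := exists_nat_gt α
  have hm0 : (0 : ℝ) < m := by linarith
  have hm1 : 1 ≤ m := by exact_mod_cast (Nat.cast_pos.mp hm0 : 0 < m)
  have hm2 : α < 2 * m := by linarith
  obtain ⟨C, hC, N₁, hlow⟩ := lower_of_hier α hα m hm2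
    (hier_of_leaf α hα m hm1 (leaf_lemma α hα m hm1))
  obtain ⟨c, hc, N₂, hup⟩ := upper_bound α hα
  refine ⟨c, max c C, hc, le_max_left _ _, max N₁ N₂, fun N hN => ?_⟩
  rw [groundEnergy_eq]
  refine ⟨?_, ?_⟩
  · refine le_trans ?_ (hlow N ((le_max_left _ _).trans hN))
    unfold gam
    rw [EReal.coe_le_coe_iff, neg_le_neg_iff]
    exact mul_le_mul_of_nonneg_right (le_max_right _ _) (Real.rpow_nonneg (Nat.cast_nonneg N) _)
  · exact hup N ((le_max_right _ _).trans hN)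

end

end Pool.Agent.Results.MP_d1ae63_mp.EnergyExponent
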